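import Mathlib

/-!
Extensions of the compact operators by `C(M)`, written with lifts: a map `f : C(M) → B(X)`
stands for `a ↦ π(f a)`, where `π : B(X) → B(X)/K(X)`.
-/

namespace Pool.Agent.H4.LB.Mid

variable {X : Type} [NormedAddCommGroup X] [NormedSpace ℂ X]

/-- `π(S) = π(T)`: the operator `S - T` is compact -/
def EqK (S T : X →L[ℂ] X) : Prop := IsCompactOperator (fun x => S x - T x)

/-- the index `dim ker T - dim coker T` -/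
noncomputable def index (T : X →L[ℂ] X) : ℤ :=
  (Module.finrank ℂ (LinearMap.ker T.toLinearMap) : ℤ) -
    (Module.finrank ℂ (X ⧸ LinearMap.range T.toLinearMap) : ℤ)

/-- `X ⊕ X → X`, `(x, y) ↦ J x + K y`, is an isomorphism with the inverse `x ↦ (P x, Q x)` -/
def IsSplit (J K P Q : X →L[ℂ] X) : Prop :=
  (∀ x, J (P x) + K (Q x) = x) ∧ ∀ x y, P (J x + K y) = x ∧ Q (J x + K y) = y

variable {M : Set ℂ} [CompactSpace M]

/-- for `r = Eq`: `f` is a unital isomorphism (into) `C(M) → B(X)`;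
for `r = EqK`: `a ↦ π(f a)` is a unital isomorphism (into) `C(M) → B(X)/K(X)` -/
def IsIso (r : (X →L[ℂ] X) → (X →L[ℂ] X) → Prop) (f : C(M, ℂ) → X →L[ℂ] X) : Prop :=
  (∀ a b, r (f (a + b)) (f a + f b)) ∧ (∀ a b, r (f (a * b)) ((f a).comp (f b))) ∧
    (∀ (c : ℂ) a, r (f (c • a)) (c • f a)) ∧ r (f 1) (ContinuousLinearMap.id ℂ X) ∧
      ∃ C : ℝ, ∀ a, (∃ T, r T (f a) ∧ ‖T‖ ≤ C * ‖a‖) ∧ ∀ T, r T (f a) → ‖a‖ ≤ C * ‖T‖

/-- trivial extension: `π(f a) = π(g a)` for a unital isomorphism `g : C(M) → B(X)` -/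
def IsTrivial (f : C(M, ℂ) → X →L[ℂ] X) : Prop :=
  IsIso EqK f ∧ ∃ g : C(M, ℂ) → X →L[ℂ] X, IsIso Eq g ∧ ∀ a, EqK (f a) (g a)

/-- equivalence: `π(g a) = π(S) π(f a) π(S)⁻¹` with `S` invertible, `R = S⁻¹` -/
def Equ (f g : C(M, ℂ) → X →L[ℂ] X) : Prop :=
  ∃ S R : X →L[ℂ] X, (∀ x, S (R x) = x) ∧ (∀ x, R (S x) = x) ∧
    ∀ a, EqK (g a) (S.comp ((f a).comp R))

/-- `a ↦ S (f a ⊕ g a) S⁻¹` for the isomorphism `S : X ⊕ X → X` given by `J, K, P, Q` -/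
def sum (J K P Q : X →L[ℂ] X) (f g : C(M, ℂ) → X →L[ℂ] X) : C(M, ℂ) → X →L[ℂ] X :=
  fun a => J.comp ((f a).comp P) + K.comp ((g a).comp Q)

/-- `[f] + [g] = [h]` -/
def SumEq (f g h : C(M, ℂ) → X →L[ℂ] X) : Prop :=
  ∃ J K P Q : X →L[ℂ] X, IsSplit J K P Q ∧ Equ (sum J K P Q f g) h

/-- the properties of `θ_M` -/
def IsTheta (t : C(M, ℂ) → X →L[ℂ] X) : Prop :=
  IsTrivial t ∧ SumEq t t t ∧
    ∀ f : C(M, ℂ) → X →L[ℂ] X, IsIso EqK f →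
      ∃ g : C(M, ℂ) → X →L[ℂ] X, IsIso EqK g ∧ SumEq f g t

/-- for every `m` outside `M` all lifts `T` of `π(f z) - m` and `U` of `π(g z) - m` have the same
index -/
def SameIndex (f g : C(M, ℂ) → X →L[ℂ] X) : Prop :=
  ∀ z : C(M, ℂ), (∀ v, z v = v.1) → ∀ m : ℂ, m ∉ M → ∀ T U : X →L[ℂ] X,
    EqK T (f z - m • ContinuousLinearMap.id ℂ X) →
      EqK U (g z - m • ContinuousLinearMap.id ℂ X) → index T = index U

/-- `[f] + [t] = [g] + [t]`, with all isomorphisms `X ⊕ X → X` -/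
def AllSums (t f g : C(M, ℂ) → X →L[ℂ] X) : Prop :=
  ∀ J K P Q J' K' P' Q' : X →L[ℂ] X, IsSplit J K P Q → IsSplit J' K' P' Q' →
    Equ (sum J K P Q f t) (sum J' K' P' Q' g t)

/-- `[f] + [t] = [g] + [t]`, with some isomorphisms `X ⊕ X → X` -/
def SomeSums (t f g : C(M, ℂ) → X →L[ℂ] X) : Prop :=
  ∃ J K P Q J' K' P' Q' : X →L[ℂ] X, IsSplit J K P Q ∧ IsSplit J' K' P' Q' ∧
    Equ (sum J K P Q f t) (sum J' K' P' Q' g t)

end Pool.Agent.H4.LB.Mid
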