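import Mathlib
import Pool.Agent.H4.LB.Mid
import Pool.Agent.H33.BDFP.Cal
import Pool.Agent.H33.BDFP.Final

/-!
From the theorem for homomorphisms into the Calkin algebra to the theorem for lifts.
-/

open scoped ENNReal

namespace Pool.Agent.H4.LB.Mid

open Pool.Agent.H33.BDFP

section

variable {X : Type} [NormedAddCommGroup X] [NormedSpace ℂ X]

lemma mk_eq {S T : X →L[ℂ] X} : calkinMk X S = calkinMk X T ↔ EqK S T := calkinMk_eq_iff S T

lemma norm_mk (T : X →L[ℂ] X) : ‖calkinMk X T‖ ≤ ‖T‖ :=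
  Submodule.Quotient.norm_mk_le (compactIdeal X) T

lemma norm_mk_lt (T : X →L[ℂ] X) {e : ℝ} (he : 0 < e) :
    ∃ S : X →L[ℂ] X, EqK S T ∧ ‖S‖ < ‖calkinMk X T‖ + e := by
  obtain ⟨S, hS, hS'⟩ := Submodule.Quotient.norm_mk_lt (S := compactIdeal X) (calkinMk X T) he
  exact ⟨S, mk_eq.1 hS, hS'⟩

variable {M : Set ℂ} [CompactSpace M]

/-- the extension given by a lift -/
noncomputable def toExt (f : C(M, ℂ) → X →L[ℂ] X) (h : IsIso EqK f) :
    C(M, ℂ) →ₐ[ℂ] Calkin X where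
  toFun := fun a => calkinMk X (f a)
  map_add' := fun a b => by rw [← map_add]; exact mk_eq.2 (h.1 a b)
  map_mul' := fun a b => by rw [← map_mul]; exact mk_eq.2 (h.2.1 a b)
  map_one' := by rw [← map_one (calkinMk X)]; exact mk_eq.2 h.2.2.2.1
  map_zero' := by
    have h1 := mk_eq.2 (h.2.2.1 0 0)
    rw [zero_smul, zero_smul, map_zero] at h1
    exact h1
  commutes' := fun c => by
    have h1 := mk_eq.2 (h.2.2.1 c 1)
    have h2 := mk_eq.2 h.2.2.2.1
    rw [map_smul, h2] at h1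
    rw [Algebra.algebraMap_eq_smul_one, h1, Algebra.algebraMap_eq_smul_one]
    rfl

lemma toExt_apply (f : C(M, ℂ) → X →L[ℂ] X) (h : IsIso EqK f) (a : C(M, ℂ)) :
    toExt f h a = calkinMk X (f a) := rfl

lemma isIso_toExt (f : C(M, ℂ) → X →L[ℂ] X) (h : IsIso EqK f) :
    IsIsoExt (M := M) (X := X) (toExt f h) := by
  obtain ⟨C, hC⟩ := h.2.2.2.2
  refine ⟨max C 1, le_max_right _ _, fun a => ?_⟩
  have h1 : (0 : ℝ) < max C 1 := lt_of_lt_of_le one_pos (le_max_right _ _)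
  rw [toExt_apply]
  obtain ⟨⟨T, hT, hT'⟩, hall⟩ := hC a
  constructor
  · rw [inv_mul_le_iff₀ h1]
    refine le_of_forall_pos_lt_add fun e he => ?_
    obtain ⟨S, hS, hS'⟩ := norm_mk_lt (f a) (div_pos he h1)
    calc ‖a‖ ≤ C * ‖S‖ := hall S hS
      _ ≤ max C 1 * ‖S‖ := by gcongr; exact le_max_left _ _
      _ < max C 1 * (‖calkinMk X (f a)‖ + e / max C 1) := by gcongr
      _ = max C 1 * ‖calkinMk X (f a)‖ + e := by
          rw [mul_add, mul_div_cancel₀ _ h1.ne']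
  · rw [← mk_eq.2 hT]
    calc ‖calkinMk X T‖ ≤ ‖T‖ := norm_mk T
      _ ≤ C * ‖a‖ := hT'
      _ ≤ max C 1 * ‖a‖ := by gcongr; exact le_max_left _ _

/-- a lift of an extension -/
noncomputable def lift (p : C(M, ℂ) →ₐ[ℂ] Calkin X) : C(M, ℂ) → X →L[ℂ] X :=
  fun a => Function.surjInv calkinMk_surjective (p a)

lemma mk_lift (p : C(M, ℂ) →ₐ[ℂ] Calkin X) (a : C(M, ℂ)) : calkinMk X (lift p a) = p a :=
  Function.surjInv_eq _ _

lemma isIso_lift (p : C(M, ℂ) →ₐ[ℂ] Calkin X) (h : IsIsoExt (M := M) (X := X) p) :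
    IsIso EqK (lift p) := by
  refine ⟨fun a b => ?_, fun a b => ?_, fun c a => ?_, ?_, ?_⟩
  · rw [← mk_eq, map_add, mk_lift, mk_lift, mk_lift, map_add]
  · rw [← mk_eq]
    have : calkinMk X ((lift p a).comp (lift p b)) = calkinMk X (lift p a) * calkinMk X (lift p b) :=
      map_mul (calkinMk X) (lift p a) (lift p b)
    rw [this, mk_lift, mk_lift, mk_lift, map_mul]
  · rw [← mk_eq, map_smul, mk_lift, mk_lift, map_smul]
  · rw [← mk_eq, mk_lift, map_one]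
    exact (map_one (calkinMk X)).symm
  · obtain ⟨C, h1, hC⟩ := h
    have h0 : (0 : ℝ) < C := lt_of_lt_of_le one_pos h1
    refine ⟨C + 1, fun a => ⟨?_, fun T hT => ?_⟩⟩
    · rcases eq_or_ne a 0 with rfl | ha
      · refine ⟨0, ?_, by simp⟩
        rw [← mk_eq, mk_lift, map_zero, map_zero]
      · obtain ⟨S, hS, hS'⟩ := norm_mk_lt (lift p a) (norm_pos_iff.2 ha)
        refine ⟨S, hS, hS'.le.trans ?_⟩
        rw [mk_lift, add_mul, one_mul]
        exact add_le_add_left (hC a).2 _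
    · have h2 := (hC a).1
      rw [inv_mul_le_iff₀ h0] at h2
      rw [← mk_eq, mk_lift] at hT
      calc ‖a‖ ≤ C * ‖p a‖ := h2
        _ = C * ‖calkinMk X T‖ := by rw [hT]
        _ ≤ C * ‖T‖ := by gcongr; exact norm_mk T
        _ ≤ (C + 1) * ‖T‖ := by gcongr; linarith

lemma toExt_lift (p : C(M, ℂ) →ₐ[ℂ] Calkin X) (h : IsIso EqK (lift p)) : toExt (lift p) h = p :=
  AlgHom.ext fun a => by rw [toExt_apply, mk_lift]

/-- the isomorphism given by `J, K, P, Q` -/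
noncomputable def splitEquiv (J K P Q : X →L[ℂ] X) (h : IsSplit J K P Q) : (X × X) ≃L[ℂ] X :=
  ContinuousLinearEquiv.equivOfInverse (J.coprod K) (P.prod Q)
    (fun z => by
      obtain ⟨x, y⟩ := z
      exact Prod.ext (h.2 x y).1 (h.2 x y).2)
    (fun x => h.1 x)

lemma conjSum_split (J K P Q : X →L[ℂ] X) (h : IsSplit J K P Q) (T U : X →L[ℂ] X) :
    conjSum (splitEquiv J K P Q h) T U = J.comp (T.comp P) + K.comp (U.comp Q) :=
  ContinuousLinearMap.ext fun _ => rfl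

lemma exists_split (S : (X × X) ≃L[ℂ] X) :
    ∃ J K P Q : X →L[ℂ] X, ∃ h : IsSplit J K P Q, splitEquiv J K P Q h = S := by
  have h : IsSplit ((S : (X × X) →L[ℂ] X).comp (ContinuousLinearMap.inl ℂ X X))
      ((S : (X × X) →L[ℂ] X).comp (ContinuousLinearMap.inr ℂ X X))
      ((ContinuousLinearMap.fst ℂ X X).comp (S.symm : X →L[ℂ] (X × X)))
      ((ContinuousLinearMap.snd ℂ X X).comp (S.symm : X →L[ℂ] (X × X))) := by
    have e : ∀ x y, S (x, 0) + S (0, y) = S (x, y) := fun x y => by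
      rw [← map_add]
      simp
    constructor
    · intro x
      change S ((S.symm x).1, 0) + S (0, (S.symm x).2) = x
      rw [e]
      exact S.apply_symm_apply x
    · intro x y
      change (S.symm (S (x, 0) + S (0, y))).1 = x ∧ (S.symm (S (x, 0) + S (0, y))).2 = y
      rw [e, S.symm_apply_apply]
      exact ⟨rfl, rfl⟩
  refine ⟨_, _, _, _, h, ContinuousLinearEquiv.ext (funext fun z => ?_)⟩
  change S (z.1, 0) + S (0, z.2) = S z
  rw [← map_add]
  simp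

lemma toExt_sum (J K P Q : X →L[ℂ] X) (h : IsSplit J K P Q) (f g : C(M, ℂ) → X →L[ℂ] X)
    (hf : IsIso EqK f) (hg : IsIso EqK g) (a : C(M, ℂ)) :
    extSum (M := M) (X := X) (splitEquiv J K P Q h) (toExt f hf) (toExt g hg) a =
      calkinMk X (sum J K P Q f g a) := by
  change calkinSum _ (calkinMk X (f a)) (calkinMk X (g a)) = _
  rw [calkinSum_mk, conjSum_split]
  rfl

lemma equ_iff_of (f g : C(M, ℂ) → X →L[ℂ] X) (p q : C(M, ℂ) →ₐ[ℂ] Calkin X)
    (hp : ∀ a, p a = calkinMk X (f a)) (hq : ∀ a, q a = calkinMk X (g a)) :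
    ExtEquiv (M := M) (X := X) p q ↔ Equ f g := by
  have key : ∀ (S R : X →L[ℂ] X) (a : C(M, ℂ)),
      (q a = calkinMk X S * p a * calkinMk X R ↔ EqK (g a) (S.comp ((f a).comp R))) := by
    intro S R a
    rw [hp, hq, ← map_mul, ← map_mul, mk_eq]
    rfl
  constructor
  · rintro ⟨S, hS⟩
    exact ⟨(S : X →L[ℂ] X), ((S⁻¹ : (X →L[ℂ] X)ˣ) : X →L[ℂ] X),
      fun x => congrArg (fun f : X →L[ℂ] X => f x) S.mul_inv,
      fun x => congrArg (fun f : X →L[ℂ] X => f x) S.inv_mul, fun a => (key _ _ a).1 (hS a)⟩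
  · rintro ⟨S, R, h1, h2, h3⟩
    exact ⟨⟨S, R, ContinuousLinearMap.ext h1, ContinuousLinearMap.ext h2⟩,
      fun a => (key _ _ a).2 (h3 a)⟩

lemma sumEq_iff (f g t : C(M, ℂ) → X →L[ℂ] X) (hf : IsIso EqK f) (hg : IsIso EqK g)
    (ht : IsIso EqK t) :
    (∃ S, ExtEquiv (M := M) (X := X) (extSum S (toExt f hf) (toExt g hg)) (toExt t ht)) ↔
      SumEq f g t := by
  constructor
  · rintro ⟨S, hS⟩
    obtain ⟨J, K, P, Q, h, rfl⟩ := exists_split S
    exact ⟨J, K, P, Q, h, (equ_iff_of _ _ _ _ (toExt_sum J K P Q h f g hf hg)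
      (toExt_apply t ht)).1 hS⟩
  · rintro ⟨J, K, P, Q, h, h1⟩
    exact ⟨splitEquiv J K P Q h, (equ_iff_of _ _ _ _ (toExt_sum J K P Q h f g hf hg)
      (toExt_apply t ht)).2 h1⟩

/-- a unital isomorphism (into) as an algebra homomorphism -/
noncomputable def toHom (g : C(M, ℂ) → X →L[ℂ] X) (h : IsIso Eq g) :
    C(M, ℂ) →ₐ[ℂ] (X →L[ℂ] X) where
  toFun := g
  map_add' := h.1
  map_mul' := h.2.1
  map_one' := h.2.2.2.1
  map_zero' := by
    have h1 := h.2.2.1 0 0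
    rw [zero_smul, zero_smul] at h1
    exact h1
  commutes' := fun c => by
    have h1 := h.2.2.1 c 1
    rw [h.2.2.2.1] at h1
    rw [Algebra.algebraMap_eq_smul_one, h1, Algebra.algebraMap_eq_smul_one]
    rfl

lemma isTheta_toExt (t : C(M, ℂ) → X →L[ℂ] X) (h : IsTheta t) :
    Pool.Agent.H33.BDFP.IsTheta (M := M) (X := X) (toExt t h.1.1) := by
  obtain ⟨⟨h1, g, hg, htg⟩, h2, h3⟩ := h
  refine ⟨⟨isIso_toExt t h1, toHom g hg, ?_, fun a => ?_⟩, ?_, fun p hp => ?_⟩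
  · obtain ⟨C, hC⟩ := hg.2.2.2.2
    refine ⟨max C 1, le_max_right _ _, fun a => ?_⟩
    have h0 : (0 : ℝ) < max C 1 := lt_of_lt_of_le one_pos (le_max_right _ _)
    obtain ⟨⟨T, hT, hT'⟩, hall⟩ := hC a
    have h4 : ‖g a‖ ≤ C * ‖a‖ := hT ▸ hT'
    have h5 : ‖a‖ ≤ C * ‖g a‖ := hall _ rfl
    constructor
    · rw [inv_mul_le_iff₀ h0]
      exact h5.trans (mul_le_mul_of_nonneg_right (le_max_left _ _) (norm_nonneg _))
    · exact h4.trans (mul_le_mul_of_nonneg_right (le_max_left _ _) (norm_nonneg _))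
  · rw [toExt_apply]
    exact mk_eq.2 (htg a)
  · exact (sumEq_iff t t t h1 h1 h1).2 h2
  · obtain ⟨f', hf', hs⟩ := h3 (lift p) (isIso_lift p hp)
    refine ⟨toExt f' hf', isIso_toExt f' hf', ?_⟩
    have := (sumEq_iff (lift p) f' t (isIso_lift p hp) hf' h1).2 hs
    rw [toExt_lift] at this
    exact this

lemma sameIndex_iff (f g : C(M, ℂ) → X →L[ℂ] X) (hf : IsIso EqK f) (hg : IsIso EqK g) :
    SameIndex f g ↔ (∀ μ : ℂ, μ ∉ M → ∀ T₁ T₂ : X →L[ℂ] X,
        calkinMk X T₁ = toExt f hf (zfun M) - μ • 1 →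
        calkinMk X T₂ = toExt g hg (zfun M) - μ • 1 → findex T₁ = findex T₂) := by
  have key : ∀ (f : C(M, ℂ) → X →L[ℂ] X) (hf : IsIso EqK f) (m : ℂ) (T : X →L[ℂ] X),
      (calkinMk X T = toExt f hf (zfun M) - m • 1 ↔
        EqK T (f (zfun M) - m • ContinuousLinearMap.id ℂ X)) := by
    intro f hf m T
    rw [← mk_eq, map_sub, map_smul, toExt_apply]
    exact Iff.rfl
  constructor
  · intro h m hm T U hT hU
    exact h (zfun M) (fun v => rfl) m hm T U ((key f hf m T).1 hT) ((key g hg m U).1 hU)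
  · intro h z hz m hm T U hT hU
    have e : z = zfun M := ContinuousMap.ext fun v => hz v
    rw [e] at hT hU
    exact h m hm T U ((key f hf m T).2 hT) ((key g hg m U).2 hU)

end

theorem main (p : ℝ≥0∞) [Fact (1 ≤ p)] (h1 : 1 < p) (hp : p ≠ ∞) (h2 : p ≠ 2) (M : Set ℂ)
    [CompactSpace M] (hM : M.Nonempty) (t f g : C(M, ℂ) → LP p →L[ℂ] LP p) (ht : IsTheta t)
    (hf : IsIso EqK f) (hg : IsIso EqK g) :
    (SameIndex f g ↔ AllSums t f g) ∧ (SameIndex f g ↔ SomeSums t f g) := by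
  have hmain := Pool.Agent.H33.BDFP.final p h1 hp h2 M hM (toExt t ht.1.1) (toExt f hf)
    (toExt g hg) (isTheta_toExt t ht) (isIso_toExt f hf) (isIso_toExt g hg)
  rw [← sameIndex_iff f g hf hg] at hmain
  have hall : SameIndex f g ↔ AllSums t f g := by
    refine hmain.trans ⟨fun h J K P Q J' K' P' Q' hs hs' => ?_, fun h S S' => ?_⟩
    · exact (equ_iff_of _ _ _ _ (toExt_sum J K P Q hs f t hf ht.1.1)
        (toExt_sum J' K' P' Q' hs' g t hg ht.1.1)).1 (h _ _)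
    · obtain ⟨J, K, P, Q, hs, rfl⟩ := exists_split S
      obtain ⟨J', K', P', Q', hs', rfl⟩ := exists_split S'
      exact (equ_iff_of _ _ _ _ (toExt_sum J K P Q hs f t hf ht.1.1)
        (toExt_sum J' K' P' Q' hs' g t hg ht.1.1)).2 (h _ _ _ _ _ _ _ _ hs hs')
  refine ⟨hall, hall.trans ⟨fun h => ?_, ?_⟩⟩
  · obtain ⟨-, ⟨Ψ⟩, -, -⟩ := Pool.Agent.H19.BDFP.pel p hp
    obtain ⟨J, K, P, Q, hs, -⟩ := exists_split Ψ
    exact ⟨J, K, P, Q, J, K, P, Q, hs, hs, h _ _ _ _ _ _ _ _ hs hs⟩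
  · rintro ⟨J, K, P, Q, J', K', P', Q', hs, hs', h0⟩
    refine hall.1 (hmain.2 fun S S' => ?_)
    have h0' := (equ_iff_of _ _ _ _ (toExt_sum J K P Q hs f t hf ht.1.1)
        (toExt_sum J' K' P' Q' hs' g t hg ht.1.1)).2 h0
    obtain ⟨-, -, hrefl, -, htrans, hcongr, -, -⟩ := Pool.Agent.H90.BDFP.semi p M
    exact htrans _ _ _ (hcongr S (splitEquiv J K P Q hs) _ _ _ _ (hrefl _) (hrefl _))
      (htrans _ _ _ h0' (hcongr (splitEquiv J' K' P' Q' hs') S' _ _ _ _ (hrefl _) (hrefl _)))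

end Pool.Agent.H4.LB.Mid
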