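import Mathlib

/-!
Extensions of the compact operators by `C(M)`, written with lifts: a family `f a : X → X`,
`a ∈ C(M)`, of operators stands for `a ↦ π(f a)`, where `π : B(X) → B(X)/K(X)`.
-/

namespace Pool.Agent.H4.LB

variable {X : Type} [NormedAddCommGroup X] [NormedSpace ℂ X]

/-- `T` is linear with `‖T x‖ ≤ c ‖x‖` -/
def Bd (c : ℝ) (T : X → X) : Prop := IsLinearMap ℂ T ∧ ∀ x, ‖T x‖ ≤ c * ‖x‖

/-- `T` is a bounded operator -/
def Op (T : X → X) : Prop := ∃ c, Bd c T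

/-- `π(S) = π(T)`: the operator `S - T` is compact -/
def EqK (S T : X → X) : Prop := IsCompactOperator (fun x => S x - T x)

/-- the index `dim ker T - dim coker T` -/
noncomputable def index (T : X → X) : ℤ :=
  (Module.finrank ℂ (Submodule.span ℂ {x | T x = 0}) : ℤ) -
    (Module.finrank ℂ (X ⧸ Submodule.span ℂ (Set.range T)) : ℤ)

/-- `X ⊕ X → X`, `(x, y) ↦ J x + K y`, is an isomorphism with the inverse `x ↦ (P x, Q x)` -/
def IsSplit (J K P Q : X → X) : Prop :=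
  (Op J ∧ Op K ∧ Op P ∧ Op Q) ∧ (∀ x, J (P x) + K (Q x) = x) ∧
    ∀ x y, P (J x + K y) = x ∧ Q (J x + K y) = y

variable {M : Set ℂ}

/-- equivalence: `π(g a) = π(S) π(f a) π(S)⁻¹` with `S` invertible, `R = S⁻¹` -/
def Equ (f g : C(M, ℂ) → X → X) : Prop :=
  ∃ S R : X → X, Op S ∧ Op R ∧ (∀ x, S (R x) = x) ∧ (∀ x, R (S x) = x) ∧
    ∀ a, EqK (g a) (fun x => S (f a (R x)))

/-- `a ↦ U (f a ⊕ g a) U⁻¹` for the isomorphism `U : X ⊕ X → X` given by `J, K, P, Q` -/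
def sum (J K P Q : X → X) (f g : C(M, ℂ) → X → X) (a : C(M, ℂ)) (x : X) : X :=
  J (f a (P x)) + K (g a (Q x))

/-- `[f] + [g] = [h]` -/
def SumEq (f g h : C(M, ℂ) → X → X) : Prop :=
  ∃ J K P Q : X → X, IsSplit J K P Q ∧ Equ (sum J K P Q f g) h

/-- for every `m` outside `M` all lifts `T` of `π(f z) - m` and `U` of `π(g z) - m` have the same
index -/
def SameIndex (f g : C(M, ℂ) → X → X) : Prop :=
  ∀ z : C(M, ℂ), (∀ v, z v = v.1) → ∀ m : ℂ, m ∉ M → ∀ T U : X → X, Op T → Op U →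
    EqK T (fun x => f z x - m • x) → EqK U (fun x => g z x - m • x) → index T = index U

variable [CompactSpace M]

/-- for `r = Eq`: `f` is a unital isomorphism (into) `C(M) → B(X)`;
for `r = EqK`: `a ↦ π(f a)` is a unital isomorphism (into) `C(M) → B(X)/K(X)` -/
def IsIso (r : (X → X) → (X → X) → Prop) (f : C(M, ℂ) → X → X) : Prop :=
  (∀ a, Op (f a)) ∧ (∀ a b, r (f (a + b)) (fun x => f a x + f b x)) ∧
    (∀ a b, r (f (a * b)) (fun x => f a (f b x))) ∧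
    (∀ (c : ℂ) a, r (f (c • a)) (fun x => c • f a x)) ∧ r (f 1) (fun x => x) ∧
    ∃ C : ℝ, ∀ a, (∃ T, Bd (C * ‖a‖) T ∧ r T (f a)) ∧
      ∀ T, ∀ c ≥ 0, Bd c T → r T (f a) → ‖a‖ ≤ C * c

/-- the properties of `θ_M` -/
def IsTheta (t : C(M, ℂ) → X → X) : Prop :=
  IsIso EqK t ∧ (∃ g : C(M, ℂ) → X → X, IsIso Eq g ∧ ∀ a, EqK (t a) (g a)) ∧ SumEq t t t ∧
    ∀ f : C(M, ℂ) → X → X, IsIso EqK f →
      ∃ g : C(M, ℂ) → X → X, IsIso EqK g ∧ SumEq f g t

variable (M X) in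
/-- the assertion of Q1 for the set `M` and the space `X`; `[f] + [t] = [g] + [t]` is taken with all,
equivalently with some, isomorphisms `X ⊕ X → X` -/
def Q1For : Prop :=
  ∀ t f g : C(M, ℂ) → X → X, IsTheta t → IsIso EqK f → IsIso EqK g →
    (SameIndex f g ↔ ∀ J K P Q J' K' P' Q' : X → X, IsSplit J K P Q → IsSplit J' K' P' Q' →
      Equ (sum J K P Q f t) (sum J' K' P' Q' g t)) ∧
    (SameIndex f g ↔ ∃ J K P Q J' K' P' Q' : X → X, IsSplit J K P Q ∧ IsSplit J' K' P' Q' ∧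
      Equ (sum J K P Q f t) (sum J' K' P' Q' g t))

end Pool.Agent.H4.LB
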