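import Mathlib
import Pool.Agent.H4.LB.Defs
import Pool.Agent.H4.LB.Conv

/-!
From continuous linear maps to plain functions.
-/

open scoped ENNReal

namespace Pool.Agent.H4.LB

section

variable {X : Type} [NormedAddCommGroup X] [NormedSpace ℂ X]

lemma bd_clm (T : X →L[ℂ] X) {c : ℝ} (h : ‖T‖ ≤ c) : Bd c T :=
  ⟨T.toLinearMap.isLinear, fun x => T.le_of_opNorm_le h x⟩

lemma op_clm (T : X →L[ℂ] X) : Op T := ⟨‖T‖, bd_clm T le_rfl⟩

lemma exists_clm_bd {c : ℝ} (hc : 0 ≤ c) {T : X → X} (h : Bd c T) :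
    ∃ S : X →L[ℂ] X, ⇑S = T ∧ ‖S‖ ≤ c :=
  ⟨(IsLinearMap.mk' T h.1).mkContinuous c h.2, rfl, LinearMap.mkContinuous_norm_le _ hc _⟩

lemma exists_clm {T : X → X} (h : Op T) : ∃ S : X →L[ℂ] X, ⇑S = T := by
  obtain ⟨c, h1, h2⟩ := h
  exact ⟨(IsLinearMap.mk' T h1).mkContinuous c h2, rfl⟩

lemma eqK_iff (S T : X →L[ℂ] X) : Mid.EqK S T ↔ EqK S T := Iff.rfl

lemma eq_iff (S T : X →L[ℂ] X) : S = T ↔ (S : X → X) = T := DFunLike.coe_injective.eq_iff.symm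

lemma index_clm (T : X →L[ℂ] X) : index T = Mid.index T := by
  have h1 : Submodule.span ℂ {x | T x = 0} = LinearMap.ker T.toLinearMap := by
    have e : {x | T x = 0} = (LinearMap.ker T.toLinearMap : Set X) := rfl
    rw [e, Submodule.span_eq]
  have h2 : Submodule.span ℂ (Set.range T) = LinearMap.range T.toLinearMap := by
    have e : Set.range T = (LinearMap.range T.toLinearMap : Set X) := rfl
    rw [e, Submodule.span_eq]
  unfold index Mid.index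
  rw [h1, h2]

lemma isSplit_clm {J K P Q : X →L[ℂ] X} (h : Mid.IsSplit J K P Q) : IsSplit (J : X → X) K P Q :=
  ⟨⟨op_clm J, op_clm K, op_clm P, op_clm Q⟩, h.1, h.2⟩

lemma exists_clm_split {J K P Q : X → X} (h : IsSplit J K P Q) :
    ∃ J' K' P' Q' : X →L[ℂ] X, Mid.IsSplit J' K' P' Q' ∧ ⇑J' = J ∧ ⇑K' = K ∧ ⇑P' = P ∧ ⇑Q' = Q := by
  obtain ⟨⟨hJ, hK, hP, hQ⟩, h1, h2⟩ := h
  obtain ⟨J', rfl⟩ := exists_clm hJ
  obtain ⟨K', rfl⟩ := exists_clm hK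
  obtain ⟨P', rfl⟩ := exists_clm hP
  obtain ⟨Q', rfl⟩ := exists_clm hQ
  exact ⟨J', K', P', Q', ⟨h1, h2⟩, rfl, rfl, rfl, rfl⟩

variable {M : Set ℂ} [CompactSpace M]

/-- the plain family of a family of continuous linear maps -/
def pl (F : C(M, ℂ) → X →L[ℂ] X) : C(M, ℂ) → X → X := fun a => F a

omit [CompactSpace M] in
lemma exists_pl {f : C(M, ℂ) → X → X} (h : ∀ a, Op (f a)) : ∃ F : C(M, ℂ) → X →L[ℂ] X, pl F = f := by
  choose F hF using fun a => exists_clm (h a)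
  exact ⟨F, funext hF⟩

lemma isIso_pl (r1 : (X →L[ℂ] X) → (X →L[ℂ] X) → Prop) (r2 : (X → X) → (X → X) → Prop)
    (hr : ∀ S T : X →L[ℂ] X, r1 S T ↔ r2 S T) (F : C(M, ℂ) → X →L[ℂ] X) :
    IsIso r2 (pl F) ↔ Mid.IsIso r1 F := by
  constructor
  · rintro ⟨-, h1, h2, h3, h4, C, hC⟩
    refine ⟨fun a b => (hr _ _).2 (h1 a b), fun a b => (hr _ _).2 (h2 a b),
      fun c a => (hr _ _).2 (h3 c a), (hr _ _).2 h4, max C 0, fun a => ⟨?_, fun T hT => ?_⟩⟩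
    · obtain ⟨T, hT, hT'⟩ := (hC a).1
      have hb : Bd (max C 0 * ‖a‖) T := by
        refine ⟨hT.1, fun x => (hT.2 x).trans ?_⟩
        gcongr
        exact le_max_left _ _
      obtain ⟨S, rfl, hS⟩ := exists_clm_bd (by positivity) hb
      exact ⟨S, (hr _ _).2 hT', hS⟩
    · refine ((hC a).2 T ‖T‖ (norm_nonneg _) (bd_clm T le_rfl) ((hr _ _).1 hT)).trans ?_
      gcongr
      exact le_max_left _ _
  · rintro ⟨h1, h2, h3, h4, C, hC⟩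
    refine ⟨fun a => op_clm (F a), fun a b => (hr _ _).1 (h1 a b), fun a b => (hr _ _).1 (h2 a b),
      fun c a => (hr _ _).1 (h3 c a), (hr _ _).1 h4, max C 0, fun a => ⟨?_, fun T c hc hT hT' => ?_⟩⟩
    · obtain ⟨T, hT, hT'⟩ := (hC a).1
      refine ⟨T, bd_clm T (hT'.trans ?_), (hr _ _).1 hT⟩
      gcongr
      exact le_max_left _ _
    · obtain ⟨S, rfl, hS⟩ := exists_clm_bd hc hT
      calc ‖a‖ ≤ C * ‖S‖ := (hC a).2 S ((hr _ _).2 hT')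
        _ ≤ max C 0 * ‖S‖ := by gcongr; exact le_max_left _ _
        _ ≤ max C 0 * c := by gcongr

omit [CompactSpace M] in
lemma equ_pl (F G : C(M, ℂ) → X →L[ℂ] X) : Equ (pl F) (pl G) ↔ Mid.Equ F G := by
  constructor
  · rintro ⟨S, R, hS, hR, h1, h2, h3⟩
    obtain ⟨S', rfl⟩ := exists_clm hS
    obtain ⟨R', rfl⟩ := exists_clm hR
    exact ⟨S', R', h1, h2, h3⟩
  · rintro ⟨S, R, h1, h2, h3⟩
    exact ⟨S, R, op_clm S, op_clm R, h1, h2, h3⟩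

omit [CompactSpace M] in
lemma sum_pl (J K P Q : X →L[ℂ] X) (F G : C(M, ℂ) → X →L[ℂ] X) :
    sum (J : X → X) K P Q (pl F) (pl G) = pl (Mid.sum J K P Q F G) := rfl

omit [CompactSpace M] in
lemma sumEq_pl (F G H : C(M, ℂ) → X →L[ℂ] X) : SumEq (pl F) (pl G) (pl H) ↔ Mid.SumEq F G H := by
  constructor
  · rintro ⟨J, K, P, Q, h1, h2⟩
    obtain ⟨J, K, P, Q, h3, rfl, rfl, rfl, rfl⟩ := exists_clm_split h1
    rw [sum_pl, equ_pl] at h2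
    exact ⟨J, K, P, Q, h3, h2⟩
  · rintro ⟨J, K, P, Q, h1, h2⟩
    refine ⟨J, K, P, Q, isSplit_clm h1, ?_⟩
    rw [sum_pl, equ_pl]
    exact h2

omit [CompactSpace M] in
lemma sameIndex_pl (F G : C(M, ℂ) → X →L[ℂ] X) : SameIndex (pl F) (pl G) ↔ Mid.SameIndex F G := by
  constructor
  · intro h z hz m hm T U hT hU
    rw [← index_clm, ← index_clm]
    exact h z hz m hm T U (op_clm T) (op_clm U) hT hU
  · intro h z hz m hm T U hT hU hT' hU'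
    obtain ⟨T, rfl⟩ := exists_clm hT
    obtain ⟨U, rfl⟩ := exists_clm hU
    rw [index_clm, index_clm]
    exact h z hz m hm T U hT' hU'

lemma isTheta_pl (F : C(M, ℂ) → X →L[ℂ] X) (h : IsTheta (pl F)) : Mid.IsTheta F := by
  obtain ⟨h1, ⟨g, hg, hg'⟩, h2, h3⟩ := h
  obtain ⟨G, rfl⟩ := exists_pl hg.1
  refine ⟨⟨(isIso_pl _ _ eqK_iff F).1 h1, G, (isIso_pl _ _ eq_iff G).1 hg, hg'⟩,
    (sumEq_pl _ _ _).1 h2, fun H hH => ?_⟩
  obtain ⟨u, hu, hs⟩ := h3 (pl H) ((isIso_pl _ _ eqK_iff H).2 hH)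
  obtain ⟨U, rfl⟩ := exists_pl hu.1
  exact ⟨U, (isIso_pl _ _ eqK_iff U).1 hu, (sumEq_pl _ _ _).1 hs⟩

end

theorem main (p : ℝ≥0∞) [Fact (1 ≤ p)] (h1 : 1 < p) (hp : p ≠ ∞) (h2 : p ≠ 2) (M : Set ℂ)
    [CompactSpace M] (hM : M.Nonempty) : Q1For (lp (fun _ : ℕ => ℂ) p) M := by
  intro t f g ht hf hg
  obtain ⟨T, rfl⟩ := exists_pl ht.1.1
  obtain ⟨F, rfl⟩ := exists_pl hf.1
  obtain ⟨G, rfl⟩ := exists_pl hg.1
  have hmain := Mid.main p h1 hp h2 M hM T F G (isTheta_pl T ht) ((isIso_pl _ _ eqK_iff F).1 hf)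
    ((isIso_pl _ _ eqK_iff G).1 hg)
  rw [sameIndex_pl]
  refine ⟨hmain.1.trans ⟨fun h J K P Q J' K' P' Q' hs hs' => ?_, fun h J K P Q J' K' P' Q' hs hs' => ?_⟩,
    hmain.2.trans ⟨?_, ?_⟩⟩
  · obtain ⟨J, K, P, Q, h3, rfl, rfl, rfl, rfl⟩ := exists_clm_split hs
    obtain ⟨J', K', P', Q', h3', rfl, rfl, rfl, rfl⟩ := exists_clm_split hs'
    rw [sum_pl, sum_pl, equ_pl]
    exact h _ _ _ _ _ _ _ _ h3 h3'
  · have := h _ _ _ _ _ _ _ _ (isSplit_clm hs) (isSplit_clm hs')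
    rwa [sum_pl, sum_pl, equ_pl] at this
  · rintro ⟨J, K, P, Q, J', K', P', Q', hs, hs', h⟩
    refine ⟨J, K, P, Q, J', K', P', Q', isSplit_clm hs, isSplit_clm hs', ?_⟩
    rw [sum_pl, sum_pl, equ_pl]
    exact h
  · rintro ⟨J, K, P, Q, J', K', P', Q', hs, hs', h⟩
    obtain ⟨J, K, P, Q, h3, rfl, rfl, rfl, rfl⟩ := exists_clm_split hs
    obtain ⟨J', K', P', Q', h3', rfl, rfl, rfl, rfl⟩ := exists_clm_split hs'
    rw [sum_pl, sum_pl, equ_pl] at h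
    exact ⟨J, K, P, Q, J', K', P', Q', h3, h3', h⟩

end Pool.Agent.H4.LB
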